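import Pool.Agent.H523R2.Cap.Fin

/-!
The certificate (words of the successive extended products).
-/

namespace Pool.Agent.H523R2.Cap

def Ta : ℕ := 69773473

def Tb : ℕ := 131298577

def Tc : ℕ := 22859594229486452319306007780226502721

def Td : ℕ := 17883582463697439714106985005487523321207837455281427489022257461386656029971747546175552148328631304449

def S1 : List (List (List ℕ)) := [[[0, 0]], [[1, 0], [2, 0]], [[0, 1], [0, 2]], [[1, 1], [2, 2]],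
  [[1, 2], [2, 1]]]

def S2 : List (List (List ℕ)) := [[[0, 0, 1], [0, 0, 2], [0, 1, 0], [0, 2, 0], [1, 0, 0], [2, 0,
  0]], [[0, 3, 1], [0, 3, 2], [0, 4, 1], [0, 4, 2], [1, 0, 3], [1, 0, 4], [1, 1, 1], [1, 2, 2],
  [2, 0, 3], [2, 0, 4], [2, 1, 2], [2, 2, 1], [3, 1, 0], [3, 2, 0], [3, 3, 3], [3, 4, 4], [4, 1,
  0], [4, 2, 0], [4, 3, 4], [4, 4, 3]], [[0, 1, 3], [0, 1, 4], [0, 2, 3], [0, 2, 4], [1, 1, 2],
  [1, 2, 1], [1, 3, 0], [1, 4, 0], [2, 1, 1], [2, 2, 2], [2, 3, 0], [2, 4, 0], [3, 0, 1], [3, 0,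
  2], [3, 3, 3], [3, 4, 4], [4, 0, 1], [4, 0, 2], [4, 3, 4], [4, 4, 3]]]

def S3 : List (List (List ℕ)) := [[[0, 1, 1, 1], [2, 0, 1, 1], [2, 2, 0, 1], [2, 2, 2, 0]], [[1,
  1, 1, 1]], [[2, 2, 2, 2]]]

def SL : List (List (List ℕ)) := [[[0, 0, 0]], [[0, 0, 1], [0, 1, 0], [1, 0, 0]], [[0, 0, 2], [0,
  2, 0], [2, 0, 0]], [[0, 1, 2], [1, 2, 0], [2, 0, 1]], [[0, 2, 1], [1, 0, 2], [2, 1, 0]], [[1,
  1, 1]], [[2, 2, 2]]]

def P1 : List (List (List ℕ)) := [[[1, 3, 6, 3], [1, 4, 4, 5], [1, 6, 4, 3], [3, 2, 3, 5], [3, 4,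
  1, 5], [3, 6, 1, 3], [4, 2, 6, 4], [4, 3, 6, 1], [4, 4, 4, 4], [4, 6, 4, 1], [6, 2, 3, 4], [6,
  3, 3, 1], [6, 4, 1, 4]], [[1, 3, 5, 5], [1, 5, 4, 5], [1, 6, 5, 3], [3, 3, 3, 5], [3, 3, 6, 3],
  [3, 5, 1, 5], [3, 6, 3, 3], [4, 2, 5, 6], [4, 6, 5, 1], [5, 2, 6, 4], [5, 3, 6, 1], [5, 5, 1,
  3], [5, 6, 4, 1], [6, 2, 3, 6], [6, 3, 3, 3], [6, 4, 1, 6]], [[1, 4, 6, 6], [1, 5, 6, 3], [1,
  6, 4, 6], [3, 6, 1, 6], [4, 4, 4, 6], [4, 4, 5, 4], [4, 5, 4, 4], [4, 5, 6, 1], [5, 2, 3, 5],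
  [5, 4, 1, 5], [5, 4, 4, 4], [6, 2, 5, 4], [6, 3, 5, 1], [6, 5, 4, 1]]]

def P2 : List (List (List ℕ)) := [[[0, 1, 6, 4], [0, 3, 6, 1], [1, 1, 1, 6], [1, 1, 3, 4], [1, 3,
  3, 1], [1, 4, 1, 4], [1, 6, 1, 1], [3, 1, 3, 2], [3, 3, 3, 0], [3, 6, 1, 0], [4, 1, 1, 4], [4,
  3, 0, 4], [4, 3, 2, 1], [6, 1, 2, 2], [6, 3, 2, 0], [6, 4, 0, 2]], [[0, 2, 6, 5], [0, 4, 4, 5],
  [0, 5, 6, 1], [0, 6, 4, 3], [1, 0, 6, 5], [1, 1, 3, 5], [1, 1, 5, 4], [1, 3, 1, 6], [1, 3, 3,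
  3], [1, 3, 5, 1], [1, 5, 3, 1], [1, 6, 1, 3], [2, 5, 6, 0], [3, 0, 6, 3], [3, 1, 3, 3], [3, 1,
  5, 2], [3, 2, 1, 6], [3, 3, 5, 0], [3, 4, 3, 2], [3, 5, 3, 0], [3, 6, 1, 2], [4, 0, 4, 5], [4,
  3, 0, 6], [4, 3, 2, 3], [4, 6, 0, 3], [5, 0, 1, 5], [5, 0, 5, 2], [5, 2, 5, 0], [6, 1, 2, 3],
  [6, 1, 4, 2], [6, 2, 0, 6], [6, 4, 0, 3], [6, 4, 1, 2], [6, 5, 1, 0]], [[0, 2, 6, 6], [0, 4, 6,
  4], [0, 6, 4, 3], [0, 6, 6, 1], [1, 1, 4, 6], [1, 4, 1, 5], [1, 4, 4, 4], [1, 5, 5, 0], [1, 6,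
  4, 1], [2, 0, 5, 5], [2, 2, 6, 3], [2, 3, 6, 1], [3, 0, 5, 3], [3, 1, 6, 2], [3, 3, 6, 0], [3,
  6, 4, 0], [4, 1, 1, 5], [4, 1, 4, 4], [4, 3, 0, 5], [4, 3, 4, 1], [4, 5, 0, 3], [4, 5, 2, 1],
  [5, 0, 1, 6], [5, 0, 5, 2], [5, 1, 1, 4], [5, 1, 3, 2], [5, 2, 5, 0], [5, 3, 0, 4], [5, 3, 2,
  1], [5, 6, 0, 2], [5, 6, 2, 0], [6, 2, 0, 5], [6, 3, 4, 0]]]

lemma chk_S1 : chk Ta 3 Tc 2 S1 = true := by decide +kernel

lemma chk_S2 : chk Tc 5 Tb 3 S2 = true := by decide +kernel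

lemma chk_S3 : chk Tb 3 Tb 4 S3 = true := by decide +kernel

lemma chk_SL : chk Tb 3 Td 3 SL = true := by decide +kernel

lemma chk_P1 : chk Td 7 Tb 4 P1 = true := by decide +kernel

lemma chk_P2 : chk Td 7 Tb 4 P2 = true := by decide +kernel

lemma h1 : Has Tc 5 2
    ([1, 2, 2, 2, 2].map (· * 2 ^ 0)) :=
  step3 has_one Tc 2 S1 chk_S1 _ 0 (by decide +kernel) _ _ _ (by decide +kernel)
    (by norm_num) (by norm_num)

lemma h2 : Has Tb 3 6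
    ([12, 112, 112].map (· * 2 ^ 0)) :=
  step3 h1 Tb 3 S2 chk_S2 _ 0 (by decide +kernel) _ _ _ (by decide +kernel)
    (by norm_num) (by norm_num)

lemma h3 : Has Tb 3 24
    ([67436544, 157351936, 157351936].map (· * 2 ^ 0)) :=
  step3 h2 Tb 4 S3 chk_S3 _ 0 (by decide +kernel) _ _ _ (by decide +kernel)
    (by norm_num) (by norm_num)

lemma h4 : Has Td 7 72
    ([584946300399648768, 4094624102797541376, 4094624102797541376, 9554122906527596544, 9554122906527596544, 7430984482854797312, 7430984482854797312].map (· * 2 ^ 19)) :=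
  step3 h3 Td 3 SL chk_SL _ 19 (by decide +kernel) _ _ _ (by decide +kernel)
    (by norm_num) (by norm_num)

lemma h5 : Has Tb 3 288
    ([13274070745303031399, 16518843594154883519, 15142273294641976559].map (· * 2 ^ 267)) :=
  step3 h4 Tb 4 P1 chk_P1 _ 191 (by decide +kernel) _ _ _ (by decide +kernel)
    (by norm_num) (by norm_num)

lemma h6 : Has Td 7 864
    ([3436710447206047901, 12830385669569245497, 11761186863771808372, 14636143652693805975, 14636143652693805975, 6623224602431136441, 5101569413099445950].map (· * 2 ^ 930)) :=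
  step3 h5 Td 3 SL chk_SL _ 129 (by decide +kernel) _ _ _ (by decide +kernel)
    (by norm_num) (by norm_num)

lemma h7 : Has Tb 3 3456
    ([10903725687082542433, 14560878185860945134, 12872543662879746865].map (· * 2 ^ 3914)) :=
  step3 h6 Tb 4 P2 chk_P2 _ 194 (by decide +kernel) _ _ _ (by decide +kernel)
    (by norm_num) (by norm_num)

lemma h8 : Has Td 7 10368
    ([3809652002626628609, 15262272822898725643, 13492611558162717893, 18018086564695464098, 18018086564695464098, 9072422373713005364, 6268356322528489493].map (· * 2 ^ 11870)) :=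
  step3 h7 Td 3 SL chk_SL _ 128 (by decide +kernel) _ _ _ (by decide +kernel)
    (by norm_num) (by norm_num)

lemma h9 : Has Tb 3 41472
    ([11431855891643407838, 16049839375291115200, 14342941269337606067].map (· * 2 ^ 47675)) :=
  step3 h8 Tb 4 P2 chk_P2 _ 195 (by decide +kernel) _ _ _ (by decide +kernel)
    (by norm_num) (by norm_num)

lemma h10 : Has Td 7 124416
    ([2195233809741024157, 9246044659285887808, 8262729141450035168, 11600520228631550675, 11600520228631550675, 6074948919147430085, 4335560187776094494].map (· * 2 ^ 143154)) :=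
  step3 h9 Td 3 SL chk_SL _ 129 (by decide +kernel) _ _ _ (by decide +kernel)
    (by norm_num) (by norm_num)

lemma h11 : Has Tb 3 497664
    ([7002575522694564534, 10397364906949642162, 9261914884461308087].map (· * 2 ^ 572809)) :=
  step3 h10 Tb 4 P2 chk_P2 _ 193 (by decide +kernel) _ _ _ (by decide +kernel)
    (by norm_num) (by norm_num)

end Pool.Agent.H523R2.Cap
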