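import Pool.Agent.H523R2.Cap.Fin

/-!
Three-term progressions and zero sums.
-/

namespace Pool.Agent.H523R2.Cap

lemma three_b {n : ℕ} (b : Fin n → ZMod 3) : b + b + b = 0 := by
  funext i
  have : ∀ z : ZMod 3, z + z + z = 0 := by decide
  exact this _

lemma APF.no_sum {n : ℕ} {A : Finset (Fin n → ZMod 3)} (h : APF A) {a b c : Fin n → ZMod 3}
    (ha : a ∈ A) (hb : b ∈ A) (hc : c ∈ A) (hs : a + b + c = 0) : a = b := by
  have e1 : a + (b - a) = b := by abel
  have e2 : a + 2 • (b - a) = c := by
    have hc' : c = -(a + b) := by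
      rw [eq_neg_iff_add_eq_zero, add_comm]; exact hs
    rw [hc', ← sub_eq_zero]
    have : a + 2 • (b - a) - -(a + b) = b + b + b := by
      rw [two_nsmul]; abel
    rw [this, three_b]
  have := h a (b - a) ha (by rw [e1]; exact hb) (by rw [e2]; exact hc)
  rw [sub_eq_zero] at this
  exact this.symm

end Pool.Agent.H523R2.Cap
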