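import Pool.Agent.H523R2.Cap.Sys

/-!
From one system to all large dimensions.
-/

namespace Pool.Agent.H523R2.Cap

open Finset

/-- no three-term progression -/
def APF {n : ℕ} (A : Finset (Fin n → ZMod 3)) : Prop :=
  ∀ x y : Fin n → ZMod 3, x ∈ A → x + y ∈ A → x + 2 • y ∈ A → y = 0

lemma pow_cap (T q D : ℕ) (c : List ℕ) (h : Has T q D c) (i : ℕ) (hi : i < q) (t : ℕ) :
    ∃ A : Finset (Fin (t * D) → ZMod 3), APF A ∧ A.card = (c.getD i 0) ^ t := by
  have h1 : Has 1 1 D [c.getD i 0] := by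
    obtain ⟨A, h1, h2, h3⟩ := h
    refine ⟨fun _ => A i, ?_, ?_, ?_⟩
    · intro j _; exact h1 i hi
    · intro a ha b hb d hd ht
      interval_cases a
      interval_cases b
      interval_cases d
      exact absurd ht (by decide)
    · intro j hj
      interval_cases j
      simpa using h3 i hi
  have h2 := step 1 1 D [c.getD i 0] h1 1 t [[List.replicate t 0]] ?_ ?_ ?_ ?_
  · obtain ⟨A, a1, -, a3⟩ := h2
    refine ⟨A 0, ?_, ?_⟩
    · intro x y hx hxy hxyy
      have := a1 0 (by norm_num) x hx (x + y) hxy (x + 2 • y) hxyy ?_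
      · have h4 := this.1
        exact left_eq_add.1 h4
      · have e : x + (x + y) + (x + 2 • y) = (x + x + x) + (y + y + y) := by
          rw [two_nsmul]; abel
        rw [e, three_zero, three_zero, add_zero]
    · have := a3 0 (by norm_num)
      simpa [wsum] using this
  · intro L hL l hl
    rw [List.mem_singleton] at hL
    subst hL
    rw [List.mem_singleton] at hl
    subst hl
    refine ⟨List.length_replicate, fun a ha => ?_⟩
    rw [List.eq_of_mem_replicate ha]; norm_num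
  · intro L hL
    rw [List.mem_singleton] at hL
    subst hL
    exact List.nodup_singleton _
  · intro L hL l hl m hm n hn _
    rw [List.mem_singleton] at hL
    subst hL
    rw [List.mem_singleton] at hl hm hn
    rw [hl, hm, hn]; exact ⟨rfl, rfl⟩
  · intro a ha b hb d hd ht
    simp only [List.length_singleton, Nat.lt_one_iff] at ha hb hd
    subst ha; subst hb; subst hd
    rw [List.length_singleton] at ht
    exact absurd ht (by decide)

lemma embed_cap {m n : ℕ} (hmn : m ≤ n) (A : Finset (Fin m → ZMod 3)) (hA : APF A) :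
    ∃ B : Finset (Fin n → ZMod 3), APF B ∧ B.card = A.card := by
  classical
  let φ : (Fin m → ZMod 3) → (Fin n → ZMod 3) := fun x i => if h : (i : ℕ) < m then x ⟨i, h⟩ else 0
  let ψ : (Fin n → ZMod 3) → (Fin m → ZMod 3) := fun x i => x (Fin.castLE hmn i)
  have hψφ : ∀ x, ψ (φ x) = x := by
    intro x; funext i
    simp [ψ, φ]
  have hinj : Function.Injective φ := Function.LeftInverse.injective hψφ
  refine ⟨A.map ⟨φ, hinj⟩, ?_, card_map _⟩
  intro x y hx hxy hxyy
  rw [mem_map] at hx hxy hxyy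
  obtain ⟨a, ha, rfl⟩ := hx
  obtain ⟨b, hb, hb'⟩ := hxy
  obtain ⟨c, hc, hc'⟩ := hxyy
  simp only [Function.Embedding.coeFn_mk] at hb' hc' ⊢
  have e1 : b = a + ψ y := by
    rw [← hψφ b, hb']
    funext i
    have := congrFun (hψφ a) i
    simp only [ψ, Pi.add_apply] at this ⊢
    rw [this]
  have e2 : c = a + 2 • ψ y := by
    rw [← hψφ c, hc']
    funext i
    have := congrFun (hψφ a) i
    simp only [ψ, Pi.add_apply, Pi.smul_apply] at this ⊢
    rw [this]
  have h0 : ψ y = 0 := hA a (ψ y) ha (e1 ▸ hb) (e2 ▸ hc)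
  funext i
  by_cases h : (i : ℕ) < m
  · have := congrFun h0 ⟨i, h⟩
    simpa [ψ] using this
  · have := congrFun hb' i
    simp only [φ, dif_neg h, Pi.add_apply, zero_add] at this
    rw [← this]; rfl

theorem all_large (T q D : ℕ) (c : List ℕ) (h : Has T q D c) (i : ℕ) (hi : i < q) (hD : 1 ≤ D)
    (C c0 : ℝ) (hc0 : 1 ≤ c0) (hC : c0 < C) (hCD : C ^ D ≤ (c.getD i 0 : ℕ)) :
    ∃ n0 : ℕ, ∀ n : ℕ, n0 ≤ n → ∃ A : Finset (Fin n → ZMod 3), APF A ∧ c0 ^ n ≤ (A.card : ℝ) := by
  have hc0' : 0 < c0 := by linarith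
  have hr : 1 < C / c0 := by rwa [one_lt_div hc0']
  obtain ⟨t0, ht0⟩ := pow_unbounded_of_one_lt (c0 ^ D) hr
  refine ⟨t0 * D + D, fun n hn => ?_⟩
  set t := n / D with ht
  have htD : t * D ≤ n := Nat.div_mul_le_self n D
  have hn' : n < t * D + D := by
    have := Nat.lt_div_mul_add (a := n) (b := D) hD
    exact this
  have htt : t0 ≤ t := by
    have : t0 * D < t * D + D := by omega
    by_contra hcon
    push Not at hcon
    have h1 : t * D + D ≤ t0 * D := by
      have : (t + 1) * D ≤ t0 * D := Nat.mul_le_mul_right _ hcon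
      linarith
    omega
  obtain ⟨A, hA, hAc⟩ := pow_cap T q D c h i hi t
  obtain ⟨B, hB, hBc⟩ := embed_cap htD A hA
  refine ⟨B, hB, ?_⟩
  rw [hBc, hAc]
  push_cast
  have hCpos : 0 < C := by linarith
  calc c0 ^ n ≤ c0 ^ (t * D + D) := pow_le_pow_right₀ hc0 hn'.le
    _ = c0 ^ (t * D) * c0 ^ D := pow_add _ _ _
    _ ≤ c0 ^ (t * D) * (C / c0) ^ t0 := mul_le_mul_of_nonneg_left ht0.le (by positivity)
    _ ≤ c0 ^ (t * D) * (C / c0) ^ (t * D) := by
        refine mul_le_mul_of_nonneg_left (pow_le_pow_right₀ hr.le ?_) (by positivity)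
        calc t0 ≤ t := htt
          _ = t * 1 := (mul_one t).symm
          _ ≤ t * D := Nat.mul_le_mul_left _ hD
    _ = (C ^ D) ^ t := by
        rw [← mul_pow, mul_div_cancel₀ _ hc0'.ne', mul_comm t D, pow_mul]
    _ ≤ ((c.getD i 0 : ℕ) : ℝ) ^ t := pow_le_pow_left₀ (by positivity) hCD t

/-- The numerical certificate for the final step. -/
def Good (D : ℕ) (c : List ℕ) (k i a b : ℕ) : Bool :=
  Nat.ble (a ^ D) (c.getD i 0 * 2 ^ k * b ^ D)

/-- Final step with a kernel-checkable numerical certificate. -/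
theorem finish (T q D : ℕ) (c : List ℕ) (k : ℕ) (h : Has T q D (c.map (· * 2 ^ k)))
    (i : ℕ) (hi : i < q) (hD : 1 ≤ D) (a b : ℕ) (hb : 0 < b) (r : ℝ) (hr : 1 ≤ r)
    (hr2 : r < (a : ℝ) / b)
    (hnum : Good D c k i a b = true) :
    ∃ n0 : ℕ, ∀ n : ℕ, n0 ≤ n → ∃ A : Finset (Fin n → ZMod 3), APF A ∧ r ^ n ≤ (A.card : ℝ) := by
  refine all_large T q D _ h i hi hD ((a : ℝ) / b) r hr hr2 ?_
  rw [getD_map_mul]
  have h1 : a ^ D ≤ c.getD i 0 * 2 ^ k * b ^ D := Nat.le_of_ble_eq_true hnum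
  have hb' : (0 : ℝ) < (b : ℝ) ^ D := by positivity
  rw [div_pow, div_le_iff₀ hb']
  exact_mod_cast h1

end Pool.Agent.H523R2.Cap
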