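import Pool.Agent.H523R2.Cap.Cert
import Pool.Agent.H523R2.Cap.Conv

/-!
The cap set bound in convenient forms.
-/

namespace Pool.Agent.H523R2.Cap

lemma num : Good 497664 [7002575522694564534, 10397364906949642162, 9261914884461308087] 572809 1
    2220866 1000000 = true := by decide +kernel

theorem rate : ∃ n0 : ℕ, ∀ n : ℕ, n0 ≤ n → ∃ A : Finset (Fin n → ZMod 3),
    APF A ∧ (2.22086 : ℝ) ^ n ≤ (A.card : ℝ) :=
  finish Tb 3 497664 [7002575522694564534, 10397364906949642162, 9261914884461308087] 572809
    h11 1 (by decide) (by decide) 2220866 1000000 (by decide) 2.22086 (by norm_num)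
    (by norm_num) num

end Pool.Agent.H523R2.Cap
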