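import Mathlib

/-!
Systems of cap sets with forbidden patterns, and the extended product construction.
-/

namespace Pool.Agent.H523R2.Cap

open Finset

/-- the allowed patterns of a table `T` on the letters `0, …, q-1` -/
def tst (T q i j k : ℕ) : Bool := T.testBit (q * q * i + q * j + k)

/-- every position of the triple of words carries an allowed pattern -/
def allE (T q : ℕ) : List ℕ → List ℕ → List ℕ → Bool
  | a :: l, b :: m, c :: n => tst T q a b c && allE T q l m n
  | _, _, _ => true

lemma allE_iff (T q : ℕ) : ∀ (b : ℕ) (l m n : List ℕ), l.length = b → m.length = b →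
    n.length = b → (allE T q l m n = true ↔
      ∀ i : Fin b, tst T q (l.getD i 0) (m.getD i 0) (n.getD i 0) = true)
  | 0, l, m, n, hl, hm, hn => by
    rw [List.length_eq_zero_iff] at hl hm hn
    subst hl; subst hm; subst hn
    simp [allE]
  | b + 1, l, m, n, hl, hm, hn => by
    obtain ⟨x, l, rfl⟩ := List.exists_cons_of_length_eq_add_one hl
    obtain ⟨y, m, rfl⟩ := List.exists_cons_of_length_eq_add_one hm
    obtain ⟨z, n, rfl⟩ := List.exists_cons_of_length_eq_add_one hn
    simp only [List.length_cons, Nat.add_right_cancel_iff] at hl hm hn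
    rw [allE, Bool.and_eq_true, allE_iff T q b l m n hl hm hn, Fin.forall_fin_succ]
    simp

/-- `Has T q d c`: there are sets `A 0, …, A (q-1)` in `F_3^d`, `A i` with `c i` elements, each of
them a cap set, and there is no solution of `x + y + z = 0` with a forbidden pattern. -/
def Has (T q d : ℕ) (c : List ℕ) : Prop :=
  ∃ A : ℕ → Finset (Fin d → ZMod 3),
    (∀ i < q, ∀ x ∈ A i, ∀ y ∈ A i, ∀ z ∈ A i, x + y + z = 0 → x = y ∧ y = z) ∧
    (∀ i < q, ∀ j < q, ∀ k < q, tst T q i j k = false →
      ∀ x ∈ A i, ∀ y ∈ A j, ∀ z ∈ A k, x + y + z ≠ 0) ∧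
    ∀ i < q, (A i).card = c.getD i 0

/-- the number of elements in the product sets -/
def wsum (c : List ℕ) (S : List (List ℕ)) : ℕ :=
  (S.map fun l => (l.map fun a => c.getD a 0).prod).sum

lemma three_zero {G : Type*} [Fintype G] (x : G → ZMod 3) : x + x + x = 0 := by
  funext i
  have : ∀ a : ZMod 3, a + a + a = 0 := by decide
  exact this (x i)

/-- the currying equivalence -/
noncomputable def cur (b d : ℕ) : (Fin b → Fin d → ZMod 3) ≃+ (Fin (b * d) → ZMod 3) where
  toFun f := fun i => f (finProdFinEquiv.symm i).1 (finProdFinEquiv.symm i).2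
  invFun g := fun i j => g (finProdFinEquiv (i, j))
  left_inv f := by funext i j; simp
  right_inv g := by
    funext i
    show g (finProdFinEquiv (finProdFinEquiv.symm i)) = g i
    rw [Equiv.apply_symm_apply]
  map_add' f g := by funext i; rfl

/-- extended product -/
theorem step (T q d : ℕ) (c : List ℕ) (h : Has T q d c) (T' b : ℕ) (S : List (List (List ℕ)))
    (hlen : ∀ L ∈ S, ∀ l ∈ L, l.length = b ∧ ∀ a ∈ l, a < q) (hnd : ∀ L ∈ S, L.Nodup)
    (h1 : ∀ L ∈ S, ∀ l ∈ L, ∀ m ∈ L, ∀ n ∈ L, allE T q l m n = true → l = m ∧ m = n)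
    (h2 : ∀ i < S.length, ∀ j < S.length, ∀ k < S.length, tst T' S.length i j k = false →
      ∀ l ∈ S.getD i [], ∀ m ∈ S.getD j [], ∀ n ∈ S.getD k [], allE T q l m n = false) :
    Has T' S.length (b * d) (S.map (wsum c)) := by
  classical
  obtain ⟨A, hcap, hgood, hcard⟩ := h
  let B : List (List ℕ) → Finset (Fin b → Fin d → ZMod 3) := fun L =>
    L.toFinset.biUnion fun l => Fintype.piFinset fun m : Fin b => A (l.getD m 0)
  have hB : ∀ L f, f ∈ B L ↔ ∃ l ∈ L, ∀ m : Fin b, f m ∈ A (l.getD m 0) := by
    intro L f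
    simp [B]
  have hlt : ∀ L ∈ S, ∀ l ∈ L, ∀ m : Fin b, l.getD m 0 < q := by
    intro L hL l hl m
    obtain ⟨e, ha⟩ := hlen L hL l hl
    have hm : (m : ℕ) < l.length := by rw [e]; exact m.2
    rw [List.getD_eq_getElem _ _ hm]
    exact ha _ (List.getElem_mem hm)
  -- the key fact
  have key : ∀ L ∈ S, ∀ M ∈ S, ∀ N ∈ S, ∀ l ∈ L, ∀ m ∈ M, ∀ n ∈ N,
      ∀ x y z : Fin b → Fin d → ZMod 3, (∀ i : Fin b, x i ∈ A (l.getD i 0)) →
      (∀ i : Fin b, y i ∈ A (m.getD i 0)) → (∀ i : Fin b, z i ∈ A (n.getD i 0)) →
      x + y + z = 0 → allE T q l m n = true := by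
    intro L hL M hM N hN l hl m hm n hn x y z hx hy hz hs
    rw [allE_iff T q b l m n (hlen L hL l hl).1 (hlen M hM m hm).1 (hlen N hN n hn).1]
    intro i
    by_contra hcon
    rw [Bool.not_eq_true] at hcon
    refine hgood _ (hlt L hL l hl i) _ (hlt M hM m hm i) _ (hlt N hN n hn i) hcon _ (hx i) _ (hy i)
      _ (hz i) ?_
    exact congrFun hs i
  have hmem : ∀ i < S.length, S.getD i [] ∈ S := by
    intro i hi
    rw [List.getD_eq_getElem _ _ hi]
    exact List.getElem_mem hi
  refine ⟨fun j => (B (S.getD j [])).map (cur b d).toEquiv.toEmbedding, ?_, ?_, ?_⟩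
  · intro j hj x hx y hy z hz hs
    simp only [mem_map_equiv] at hx hy hz
    rw [hB] at hx hy hz
    obtain ⟨l, hl, hx⟩ := hx
    obtain ⟨m, hm, hy⟩ := hy
    obtain ⟨n, hn, hz⟩ := hz
    have hs' : (cur b d).symm x + (cur b d).symm y + (cur b d).symm z = 0 := by
      rw [← map_add, ← map_add, hs, map_zero]
    have hL := hmem j hj
    have hall := key _ hL _ hL _ hL l hl m hm n hn _ _ _ hx hy hz hs'
    obtain ⟨rfl, rfl⟩ := h1 _ hL l hl m hm n hn hall
    have : ∀ i : Fin b, (cur b d).symm x i = (cur b d).symm y i ∧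
        (cur b d).symm y i = (cur b d).symm z i := by
      intro i
      exact hcap _ (hlt _ hL l hl i) _ (hx i) _ (hy i) _ (hz i) (congrFun hs' i)
    constructor
    · apply (cur b d).symm.injective
      funext i; exact (this i).1
    · apply (cur b d).symm.injective
      funext i; exact (this i).2
  · intro i hi j hj k hk ht x hx y hy z hz hs
    simp only [mem_map_equiv] at hx hy hz
    rw [hB] at hx hy hz
    obtain ⟨l, hl, hx⟩ := hx
    obtain ⟨m, hm, hy⟩ := hy
    obtain ⟨n, hn, hz⟩ := hz
    have hs' : (cur b d).symm x + (cur b d).symm y + (cur b d).symm z = 0 := by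
      rw [← map_add, ← map_add, hs, map_zero]
    have hall := key _ (hmem i hi) _ (hmem j hj) _ (hmem k hk) l hl m hm n hn _ _ _ hx hy hz hs'
    rw [h2 i hi j hj k hk ht l hl m hm n hn] at hall
    exact Bool.false_ne_true hall
  · intro j hj
    have hL := hmem j hj
    rw [card_map]
    have hc : (B (S.getD j [])).card =
        ∑ l ∈ (S.getD j []).toFinset, (l.map fun a => c.getD a 0).prod := by
      rw [card_biUnion]
      · refine sum_congr rfl fun l hl => ?_
        rw [List.mem_toFinset] at hl
        rw [Fintype.card_piFinset]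
        have e := (hlen _ hL l hl).1
        rw [← List.prod_ofFn]
        congr 1
        apply List.ext_getElem
        · simp [e]
        · intro i h1' h2'
          simp only [List.length_ofFn] at h1'
          simp only [List.getElem_ofFn, List.getElem_map]
          have h3 := hcard _ (hlt _ hL l hl ⟨i, h1'⟩)
          simp only at h3
          rw [h3, List.getD_eq_getElem l 0 (by rw [e]; exact h1')]
      · intro l hl m hm hne
        rw [mem_coe, List.mem_toFinset] at hl hm
        rw [Function.onFun, disjoint_left]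
        intro f hf hf'
        rw [Fintype.mem_piFinset] at hf hf'
        apply hne
        have hs : f + f + f = 0 := by
          funext i; exact three_zero (f i)
        have := key _ hL _ hL _ hL l hl l hl m hm f f f hf hf hf' hs
        exact (h1 _ hL l hl l hl m hm this).2
    rw [hc, List.sum_toFinset _ (hnd _ hL)]
    rw [List.getD_eq_getElem (S.map (wsum c)) 0 (by simpa using hj), List.getElem_map, wsum,
      List.getD_eq_getElem _ _ hj]

/-- Boolean check of the hypotheses of `step`. -/
def chk (T q T' b : ℕ) (S : List (List (List ℕ))) : Bool :=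
  (S.all fun L => L.all fun l => l.length == b && l.all fun a => decide (a < q)) &&
  (S.all fun L => decide L.Nodup) &&
  (S.all fun L => L.all fun l => L.all fun m => L.all fun n =>
    !(allE T q l m n) || (l == m && m == n)) &&
  ((List.range S.length).all fun i => (List.range S.length).all fun j =>
    (List.range S.length).all fun k => tst T' S.length i j k ||
      ((S.getD i []).all fun l => (S.getD j []).all fun m => (S.getD k []).all fun n =>
        !(allE T q l m n)))

/-- smaller sizes -/
lemma Has.mono {T q d : ℕ} {c c' : List ℕ} (h : Has T q d c)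
    (hc : ∀ i < q, c'.getD i 0 ≤ c.getD i 0) : Has T q d c' := by
  obtain ⟨A, h1, h2, h3⟩ := h
  have : ∀ i, ∃ B : Finset (Fin d → ZMod 3), B ⊆ A i ∧ (i < q → B.card = c'.getD i 0) := by
    intro i
    by_cases hi : i < q
    · obtain ⟨B, hB, hB'⟩ := exists_subset_card_eq (show c'.getD i 0 ≤ (A i).card by
        rw [h3 i hi]; exact hc i hi)
      exact ⟨B, hB, fun _ => hB'⟩
    · exact ⟨∅, empty_subset _, fun h => absurd h hi⟩
  choose B hB hB' using this
  refine ⟨B, ?_, ?_, fun i hi => hB' i hi⟩
  · intro i hi x hx y hy z hz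
    exact h1 i hi x (hB i hx) y (hB i hy) z (hB i hz)
  · intro i hi j hj k hk ht x hx y hy z hz
    exact h2 i hi j hj k hk ht x (hB i hx) y (hB j hy) z (hB k hz)

lemma getD_map_mul (A : List ℕ) (k i : ℕ) : (A.map (· * k)).getD i 0 = A.getD i 0 * k := by
  rw [List.getD_eq_getElem?_getD, List.getD_eq_getElem?_getD, List.getElem?_map]
  cases A[i]? <;> simp

lemma wsum_scale (A : List ℕ) (k b : ℕ) (S : List (List ℕ)) (hS : ∀ l ∈ S, l.length = b) :
    wsum (A.map (· * k)) S = wsum A S * k ^ b := by
  unfold wsum
  rw [← List.sum_map_mul_right]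
  congr 1
  refine List.map_congr_left fun l hl => ?_
  have : ∀ l : List ℕ, (l.map fun a => (A.map (· * k)).getD a 0).prod =
      (l.map fun a => A.getD a 0).prod * k ^ l.length := by
    intro l
    induction l with
    | nil => simp
    | cons a l ih =>
      rw [List.map_cons, List.prod_cons, ih, getD_map_mul, List.map_cons, List.prod_cons,
        List.length_cons, pow_succ]
      ring
  rw [this l, hS l hl]

theorem step2 (T q d : ℕ) (A : List ℕ) (k : ℕ) (h : Has T q d (A.map (· * 2 ^ k)))
    (T' b : ℕ) (S : List (List (List ℕ))) (hchk : chk T q T' b S = true) (A' : List ℕ) (s : ℕ)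
    (hA : ((List.range S.length).all fun i =>
      Nat.ble (A'.getD i 0 * 2 ^ s) (wsum A (S.getD i []))) = true) :
    Has T' S.length (b * d) (A'.map (· * 2 ^ (b * k + s))) := by
  unfold chk at hchk
  rw [Bool.and_eq_true, Bool.and_eq_true, Bool.and_eq_true] at hchk
  obtain ⟨⟨⟨c1, c2⟩, c3⟩, c4⟩ := hchk
  have hlen : ∀ L ∈ S, ∀ l ∈ L, l.length = b ∧ ∀ a ∈ l, a < q := by
    intro L hL l hl
    rw [List.all_eq_true] at c1
    have := c1 L hL
    rw [List.all_eq_true] at this
    have := this l hl
    rw [Bool.and_eq_true, beq_iff_eq, List.all_eq_true] at this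
    exact ⟨this.1, fun a ha => of_decide_eq_true (this.2 a ha)⟩
  have hmem : ∀ i < S.length, S.getD i [] ∈ S := by
    intro i hi
    rw [List.getD_eq_getElem _ _ hi]
    exact List.getElem_mem hi
  have H := step T q d _ h T' b S hlen ?_ ?_ ?_
  · refine H.mono fun i hi => ?_
    rw [getD_map_mul, List.getD_eq_getElem (S.map (wsum (A.map (· * 2 ^ k)))) 0
      (by simpa using hi), List.getElem_map,
      wsum_scale A (2 ^ k) b _ (fun l hl => (hlen _ (List.getElem_mem hi) l hl).1)]
    rw [List.all_eq_true] at hA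
    have := Nat.le_of_ble_eq_true (hA i (List.mem_range.2 hi))
    rw [List.getD_eq_getElem S [] hi] at this
    calc A'.getD i 0 * 2 ^ (b * k + s) = (A'.getD i 0 * 2 ^ s) * (2 ^ k) ^ b := by
          rw [← pow_mul, pow_add, mul_comm b k]; ring
      _ ≤ _ := Nat.mul_le_mul_right _ this
  · intro L hL
    rw [List.all_eq_true] at c2
    exact of_decide_eq_true (c2 L hL)
  · intro L hL l hl m hm n hn he
    rw [List.all_eq_true] at c3
    have := c3 L hL
    rw [List.all_eq_true] at this
    have := this l hl
    rw [List.all_eq_true] at this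
    have := this m hm
    rw [List.all_eq_true] at this
    have := this n hn
    rw [he, Bool.not_true, Bool.false_or, Bool.and_eq_true, beq_iff_eq, beq_iff_eq] at this
    exact this
  · intro i hi j hj k hk ht l hl m hm n hn
    rw [List.all_eq_true] at c4
    have := c4 i (List.mem_range.2 hi)
    rw [List.all_eq_true] at this
    have := this j (List.mem_range.2 hj)
    rw [List.all_eq_true] at this
    have := this k (List.mem_range.2 hk)
    rw [ht, Bool.false_or, List.all_eq_true] at this
    have := this l hl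
    rw [List.all_eq_true] at this
    have := this m hm
    rw [List.all_eq_true] at this
    have := this n hn
    rw [Bool.not_eq_true'] at this
    exact this

/-- the one-dimensional system `{0}, {1}, {2}` -/
lemma has_one : Has (2 ^ 0 + 2 ^ 5 + 2 ^ 7 + 2 ^ 11 + 2 ^ 13 + 2 ^ 15 + 2 ^ 19 + 2 ^ 21 + 2 ^ 26)
    3 1 ([1, 1, 1].map (· * 2 ^ 0)) := by
  refine ⟨fun i => {fun _ => (i : ZMod 3)}, ?_, ?_, ?_⟩
  · intro i _ x hx y hy z hz _
    rw [mem_singleton] at hx hy hz
    exact ⟨hx.trans hy.symm, hy.trans hz.symm⟩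
  · intro i hi j hj k hk ht x hx y hy z hz hs
    rw [mem_singleton] at hx hy hz
    subst hx; subst hy; subst hz
    have h0 := congrFun hs 0
    simp only [Pi.add_apply, Pi.zero_apply] at h0
    interval_cases i <;> interval_cases j <;> interval_cases k <;>
      first
      | exact absurd ht (by decide)
      | exact absurd h0 (by decide)
  · intro i hi
    rw [card_singleton]
    interval_cases i <;> rfl

end Pool.Agent.H523R2.Cap

namespace Pool.Agent.H523R2.Cap

theorem step3 {T q d : ℕ} {A : List ℕ} {k : ℕ} (h : Has T q d (A.map (· * 2 ^ k)))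
    (T' b : ℕ) (S : List (List (List ℕ))) (hchk : chk T q T' b S = true) (A' : List ℕ) (s : ℕ)
    (hA : ((List.range S.length).all fun i =>
      Nat.ble (A'.getD i 0 * 2 ^ s) (wsum A (S.getD i []))) = true) (q' d' k' : ℕ)
    (hq : S.length = q') (hd : b * d = d') (hk : b * k + s = k') :
    Has T' q' d' (A'.map (· * 2 ^ k')) := by
  subst hq; subst hd; subst hk
  exact step2 T q d A k h T' b S hchk A' s hA

end Pool.Agent.H523R2.Cap
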